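import Pool.Agent.helper91.ADV.SpecL

/-!
# MP_069684_lc, project adv, row AVL: the average lemma
-/

set_option autoImplicit false

namespace Pool.Agent.ADV

open Finset Pool.Agent.helper55.NT Pool.Agent.LNB Pool.Agent.NG Pool.Agent.PB Pool.Agent.PC

theorem AVL_geom (t : ℕ) : ∑ i ∈ Icc 1 t, (1 / 2 : ℝ) ^ i ≤ 1 := by
  have h : ∀ t : ℕ, ∑ i ∈ Icc 1 t, (1 / 2 : ℝ) ^ i = 1 - (1 / 2) ^ t := by
    intro t
    induction t with
    | zero => simp
    | succ t ih =>
      rw [Finset.sum_Icc_succ_top (by omega), ih]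
      ring
  rw [h]
  have : (0 : ℝ) ≤ (1 / 2) ^ t := by positivity
  linarith

theorem AVL_acc (P A Om : Type) [Fintype P] [DecidableEq P] [Fintype A] [Fintype Om] (S : Sys P A Om)
    (L : ℕ) (hA : 0 < Fintype.card A) (hO : 0 < Fintype.card Om) (hL : 1 ≤ L) (hk : 2 * S.k * L ≤ S.kap)
    (hit : ∀ B : Finset P, S.PF B → B.card ≤ 2 * S.t → Fintype.card Om ≤ ct (fun w => B ⊆ S.nu w) * L ^ B.card)
    (C : Finset (Finset P)) (hC : ClF S.PF S.k S.t C) :
    (ct (fun a => AccT S.t C (S.g a)) : ℝ) / Fintype.card A ≤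
      (ct (fun w => AccT S.t C (S.nu w)) : ℝ) / Fintype.card Om := by
  classical
  have hA' : (0 : ℝ) < Fintype.card A := by exact_mod_cast hA
  have hO' : (0 : ℝ) < Fintype.card Om := by exact_mod_cast hO
  have hL' : (1 : ℝ) ≤ L := by exact_mod_cast hL
  by_cases hne : ∃ B ∈ C, B.card ≤ S.t
  swap
  · have h0 : ct (fun a => AccT S.t C (S.g a)) = 0 := by
      refine ct_false fun a ha => hne ?_
      obtain ⟨B, h1, h2, _⟩ := ha
      exact ⟨B, h1, h2⟩
    rw [h0]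
    simp only [Nat.cast_zero, zero_div]
    positivity
  have hne' : (C.filter fun B => B.card ≤ S.t).Nonempty := by
    obtain ⟨B, h1, h2⟩ := hne
    exact ⟨B, mem_filter.2 ⟨h1, h2⟩⟩
  obtain ⟨B0, hB0, hmin⟩ := exists_min_image (C.filter fun B => B.card ≤ S.t) card hne'
  rw [mem_filter] at hB0
  -- the negative side
  have hneg : (1 : ℝ) / (L : ℝ) ^ B0.card ≤ (ct (fun w => AccT S.t C (S.nu w)) : ℝ) / Fintype.card Om := by
    have h1 := hit B0 (hC.mem B0 hB0.1).1 (hC.mem B0 hB0.1).2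
    have h2 : ct (fun w => B0 ⊆ S.nu w) ≤ ct (fun w => AccT S.t C (S.nu w)) :=
      ct_mono fun w hw => ⟨B0, hB0.1, hB0.2, hw⟩
    have h3 : Fintype.card Om ≤ ct (fun w => AccT S.t C (S.nu w)) * L ^ B0.card :=
      h1.trans (Nat.mul_le_mul_right _ h2)
    have h4 : (Fintype.card Om : ℝ) ≤ (ct (fun w => AccT S.t C (S.nu w)) : ℝ) * (L : ℝ) ^ B0.card := by
      exact_mod_cast h3
    rw [div_le_div_iff₀ (by positivity) hO', one_mul]
    exact h4
  refine le_trans ?_ hneg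
  rcases Nat.eq_zero_or_pos B0.card with hb | hb
  · rw [hb, pow_zero, div_one, div_le_one hA']
    exact_mod_cast ct_le _
  -- the positive side
  have hkap : 0 < S.kap := by
    have := S.k2
    have h1 : 0 < 2 * S.k * L := by positivity
    omega
  have hkap' : (0 : ℝ) < S.kap := by exact_mod_cast hkap
  have hq : (S.k : ℝ) / S.kap ≤ 1 / 2 * (1 / L) := by
    have h1 : (2 * S.k * L : ℝ) ≤ S.kap := by exact_mod_cast hk
    rw [div_mul_div_comm, one_mul, div_le_div_iff₀ hkap' (by positivity)]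
    nlinarith
  have hcov : ct (fun a => AccT S.t C (S.g a)) ≤
      ∑ b ∈ Icc B0.card S.t, ∑ Z ∈ MnF C ∅ b, ct (fun a => Z ⊆ S.g a) := by
    have h1 : (univ.filter fun a => AccT S.t C (S.g a)) ⊆
        (Icc B0.card S.t).biUnion fun b => (MnF C ∅ b).biUnion fun Z => univ.filter fun a => Z ⊆ S.g a := by
      intro a ha
      obtain ⟨B, h1, h2, h3⟩ := (mem_filter.1 ha).2
      obtain ⟨Z, hZ1, hZ2⟩ := qEXM P C ∅ B (disjoint_empty_left B) (by rw [empty_union]; exact h1)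
      have hZC : Z ∈ C := by
        have h4 := (mem_filter.1 hZ2).2.2.2.1
        rwa [empty_union] at h4
      have hZt : Z.card ≤ S.t := (card_le_card hZ1).trans h2
      refine mem_biUnion.2 ⟨Z.card, mem_Icc.2 ⟨hmin Z (mem_filter.2 ⟨hZC, hZt⟩), hZt⟩, ?_⟩
      exact mem_biUnion.2 ⟨Z, hZ2, mem_filter.2 ⟨mem_univ _, hZ1.trans h3⟩⟩
    rw [ct_eq]
    refine (card_le_card h1).trans (card_biUnion_le.trans (sum_le_sum fun b _ => ?_))
    refine card_biUnion_le.trans (sum_le_sum fun Z _ => ?_)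
    rw [ct_eq]
  have hterm : ∀ b ∈ Icc B0.card S.t, (∑ Z ∈ MnF C ∅ b, (ct (fun a => Z ⊆ S.g a) : ℝ)) ≤
      Fintype.card A * ((1 / 2) ^ b * (1 / (L : ℝ) ^ B0.card)) := by
    intro b hb'
    rw [mem_Icc] at hb'
    have h1 : ∀ Z ∈ MnF C ∅ b, (ct (fun a => Z ⊆ S.g a) : ℝ) ≤ Fintype.card A / (S.kap : ℝ) ^ b := by
      intro Z hZ
      have hZ' := (mem_filter.1 hZ).2
      have hZC : Z ∈ C := by
        have h4 := hZ'.2.2.1
        rwa [empty_union] at h4
      have h2 := S.pos Z (hC.mem Z hZC).1 (hC.mem Z hZC).2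
      rw [hZ'.1] at h2
      rw [le_div_iff₀ (by positivity)]
      exact_mod_cast h2
    have h2 : (∑ Z ∈ MnF C ∅ b, (ct (fun a => Z ⊆ S.g a) : ℝ)) ≤
        (MnF C ∅ b).card * (Fintype.card A / (S.kap : ℝ) ^ b) := by
      refine (sum_le_sum h1).trans ?_
      rw [sum_const, nsmul_eq_mul]
    have h3 : ((MnF C ∅ b).card : ℝ) ≤ (S.k : ℝ) ^ b := by
      have := qMNC P S.PF S.k S.t C hC b ∅ (by rw [card_empty]; omega)
      exact_mod_cast this
    have h4 : (S.k : ℝ) ^ b * (Fintype.card A / (S.kap : ℝ) ^ b) = Fintype.card A * ((S.k : ℝ) / S.kap) ^ b := by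
      rw [div_pow]
      ring
    have h5 : ((S.k : ℝ) / S.kap) ^ b ≤ (1 / 2) ^ b * (1 / (L : ℝ) ^ B0.card) := by
      have h6 : ((S.k : ℝ) / S.kap) ^ b ≤ (1 / 2 * (1 / (L : ℝ))) ^ b :=
        pow_le_pow_left₀ (by positivity) hq b
      refine h6.trans ?_
      rw [mul_pow]
      refine mul_le_mul_of_nonneg_left ?_ (by positivity)
      rw [one_div_pow]
      exact one_div_le_one_div_of_le (by positivity) (pow_le_pow_right₀ hL' hb'.1)
    calc (∑ Z ∈ MnF C ∅ b, (ct (fun a => Z ⊆ S.g a) : ℝ))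
        ≤ (MnF C ∅ b).card * (Fintype.card A / (S.kap : ℝ) ^ b) := h2
      _ ≤ (S.k : ℝ) ^ b * (Fintype.card A / (S.kap : ℝ) ^ b) :=
          mul_le_mul_of_nonneg_right h3 (by positivity)
      _ = Fintype.card A * ((S.k : ℝ) / S.kap) ^ b := h4
      _ ≤ Fintype.card A * ((1 / 2) ^ b * (1 / (L : ℝ) ^ B0.card)) :=
          mul_le_mul_of_nonneg_left h5 hA'.le
  rw [div_le_iff₀ hA']
  have h7 : (ct (fun a => AccT S.t C (S.g a)) : ℝ) ≤
      ∑ b ∈ Icc B0.card S.t, ∑ Z ∈ MnF C ∅ b, (ct (fun a => Z ⊆ S.g a) : ℝ) := by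
    exact_mod_cast hcov
  have h8 : ∑ b ∈ Icc B0.card S.t, (1 / 2 : ℝ) ^ b ≤ 1 := by
    refine le_trans ?_ (AVL_geom S.t)
    refine sum_le_sum_of_subset_of_nonneg ?_ fun i _ _ => by positivity
    intro i hi
    rw [mem_Icc] at hi ⊢
    omega
  calc (ct (fun a => AccT S.t C (S.g a)) : ℝ)
      ≤ ∑ b ∈ Icc B0.card S.t, ∑ Z ∈ MnF C ∅ b, (ct (fun a => Z ⊆ S.g a) : ℝ) := h7
    _ ≤ ∑ b ∈ Icc B0.card S.t, Fintype.card A * ((1 / 2) ^ b * (1 / (L : ℝ) ^ B0.card)) := sum_le_sum hterm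
    _ = (∑ b ∈ Icc B0.card S.t, (1 / 2 : ℝ) ^ b) * (Fintype.card A * (1 / (L : ℝ) ^ B0.card)) := by
        rw [sum_mul]
        exact sum_congr rfl fun b _ => by ring
    _ ≤ 1 * (Fintype.card A * (1 / (L : ℝ) ^ B0.card)) :=
        mul_le_mul_of_nonneg_right h8 (by positivity)
    _ = 1 / (L : ℝ) ^ B0.card * Fintype.card A := by ring

theorem AVL : AVL_stmt := by
  classical
  intro P A Om _ _ _ _ S N ρ L u s hA hO hL hk hit hu
  obtain ⟨l, hl, hls, hav⟩ := hu
  obtain ⟨E, E', hE, hE', hall⟩ := qAPM P A Om S N ρ l hl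
  obtain ⟨C, hC, h1, h2⟩ := hall u hav
  have hA' : (0 : ℝ) < Fintype.card A := by exact_mod_cast hA
  have hO' : (0 : ℝ) < Fintype.card Om := by exact_mod_cast hO
  have hM : (0 : ℝ) < S.M := by exact_mod_cast S.M1
  have hacc := AVL_acc P A Om S L hA hO hL hk hit C hC
  have hls' : (l.length : ℝ) ≤ s := by exact_mod_cast hls
  have c1 : (ct (fun a => u (inp ρ (S.g a)) = true) : ℝ) ≤ E.card + ct (fun a => AccT S.t C (S.g a)) := by
    have h3 : ct (fun a => u (inp ρ (S.g a)) = true) ≤ E.card + ct (fun a => AccT S.t C (S.g a)) := by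
      rw [← ct_mem E]
      refine le_trans (ct_mono fun a ha => ?_) (ct_or _ _)
      by_cases h : a ∈ E
      · exact Or.inl h
      · exact Or.inr (h1 a h ha)
    exact_mod_cast h3
  have c2 : (ct (fun w => AccT S.t C (S.nu w)) : ℝ) ≤ ct (fun w => u (inp ρ (S.nu w)) = true) + E'.card := by
    have h3 : ct (fun w => AccT S.t C (S.nu w)) ≤ ct (fun w => u (inp ρ (S.nu w)) = true) + E'.card := by
      rw [← ct_mem E']
      refine le_trans (ct_mono fun w hw => ?_) (ct_or _ _)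
      by_cases h : w ∈ E'
      · exact Or.inr h
      · exact Or.inl (h2 w h hw)
    exact_mod_cast h3
  have c3 : (E.card : ℝ) / Fintype.card A ≤ s * (1 / 4 ^ S.t) := by
    have h3 : (E.card : ℝ) * 4 ^ S.t ≤ l.length * Fintype.card A := by exact_mod_cast hE
    rw [mul_one_div, div_le_div_iff₀ hA' (by positivity)]
    exact h3.trans (mul_le_mul_of_nonneg_right hls' hA'.le)
  have c4 : (E'.card : ℝ) / Fintype.card Om ≤ s * (((Fintype.card P : ℝ) + 1) ^ (2 * S.t) / S.M) := by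
    have h3 : (E'.card : ℝ) * S.M ≤ l.length * (((Fintype.card P : ℝ) + 1) ^ (2 * S.t) * Fintype.card Om) := by
      exact_mod_cast hE'
    rw [← mul_div_assoc, div_le_div_iff₀ hO' hM]
    refine h3.trans ?_
    rw [← mul_assoc]
    refine mul_le_mul_of_nonneg_right (mul_le_mul_of_nonneg_right hls' (by positivity)) hO'.le
  have c5 : (ct (fun a => u (inp ρ (S.g a)) = true) : ℝ) / Fintype.card A ≤
      (E.card : ℝ) / Fintype.card A + (ct (fun a => AccT S.t C (S.g a)) : ℝ) / Fintype.card A := by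
    rw [← add_div]
    exact div_le_div_of_nonneg_right c1 hA'.le
  have c6 : (ct (fun w => AccT S.t C (S.nu w)) : ℝ) / Fintype.card Om ≤
      (ct (fun w => u (inp ρ (S.nu w)) = true) : ℝ) / Fintype.card Om + (E'.card : ℝ) / Fintype.card Om := by
    rw [← add_div]
    exact div_le_div_of_nonneg_right c2 hO'.le
  linarith

end Pool.Agent.ADV
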