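import Pool.Agent.helper93.ADV.SpecU

/-!
# MP_069684_lc, project adv, row SLF: the slice functions of an arbitrary function have small circuits without NOT gates
(Berkowitz), as functions on the whole cube.
-/

set_option autoImplicit false

namespace Pool.Agent.ADV

open Finset Pool.Agent.helper38.Neg Pool.Agent.helper55.NT Pool.Agent.LNB

lemma SLF_T_one {n : ℕ} (x : Fin n → Bool) (i : Fin n) :
    (x i = true → wt (rem {i} x) + 1 = wt x) ∧ (x i = false → wt (rem {i} x) = wt x) := by
  have h0 : rem ∅ x = x := rem_empty x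
  constructor
  · intro h
    have h1 := rem_insert_wt ∅ x i (by rw [h0]; exact h)
    rw [h0, insert_empty_eq] at h1
    exact h1
  · intro h
    have h1 := rem_insert_false ∅ x i (by rw [h0]; exact h)
    rw [h0, insert_empty_eq] at h1
    rw [h1]

lemma SLF_point {n s : ℕ} (k : ℕ) (C : Circuit n s) (o : Fin (n + s)) (x : Fin n → Bool) :
    win k 1 (fun x => C.val x o) x =
      (T ∅ (k + 1) x || (T ∅ k x && (dval C (fun i => x i) (fun i => T {i} k x) o).1)) := by
  show (decide (k + 1 ≤ wt x) || (decide (k ≤ wt x) && C.val x o)) = _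
  have h0 : rem ∅ x = x := rem_empty x
  by_cases h1 : k ≤ wt x
  swap
  · have h2 : ¬ k + 1 ≤ wt x := by omega
    simp [T, h0, h1, h2]
  by_cases h2 : k + 1 ≤ wt x
  · simp [T, h0, h2]
  have h3 : C.val x o = (dval C (fun i => x i) (fun i => T {i} k x) o).1 := by
    cases hz : C.val x o
    · symm
      rw [Bool.eq_false_iff]
      intro hd
      have h4 := (dval_ge C x (fun i => x i) (fun i => T {i} k x)
        (fun i => ⟨fun h => h, fun h => ?_⟩) o).1 hd
      · rw [hz] at h4
        exact absurd h4 (by simp)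
      · by_contra hi
        rw [Bool.not_eq_false] at hi
        have h5 := (SLF_T_one x i).1 hi
        simp only [T, decide_eq_true_eq] at h
        omega
    · symm
      refine (dval_le C x (fun i => x i) (fun i => T {i} k x)
        (fun i => ⟨fun h => h, fun h => ?_⟩) o).1 hz
      have h5 := (SLF_T_one x i).2 h
      simp only [T, decide_eq_true_eq]
      omega
  rw [h3]
  simp [T, h0]

theorem SLF : SLF_stmt := by
  classical
  intro n s k C o
  have hT : ∀ (S : Finset (Fin n)) (j : ℕ), S.card ≤ 1 → T S j ∈ F0 n 1 := by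
    intro S j hS
    refine Or.inr ?_
    simp only [Set.mem_iUnion]
    exact ⟨S, by rw [Sm, Finset.mem_filter]; exact ⟨Finset.mem_univ _, hS⟩, j, rfl⟩
  have h0 : Rel (F0 n 1) 0 0 ((Set.range fun (i : Fin n) (x : Fin n → Bool) => x i) ∪
      Set.range fun (i : Fin n) => T {i} k) := by
    refine Rel.sub ?_
    rintro g (⟨i, rfl⟩ | ⟨i, rfl⟩)
    · refine Or.inl ?_
      simp only [Set.mem_iUnion]
      exact ⟨i, Finset.mem_univ _, rfl⟩
    · exact hT _ _ (by simp)
  have h1 := Rel.dual C (fun (i : Fin n) (x : Fin n → Bool) => x i)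
    (fun (i : Fin n) => T {i} k)
  have h2 := h0.trans' (h1.mono Set.subset_union_right le_rfl le_rfl le_rfl)
  have h3 : Rel (F0 n 1) (2 * s) 0 {fun x : Fin n → Bool =>
      (dval C (fun i => x i) (fun i => T {i} k x) o).1} := by
    refine h2.mono le_rfl ?_ (by omega) le_rfl
    rintro g rfl
    exact Or.inl ⟨o, rfl⟩
  have h4 : Rel (F0 n 1 ∪ {fun x : Fin n → Bool =>
      (dval C (fun i => x i) (fun i => T {i} k x) o).1}) 1 0
      {fun x => T ∅ k x && (dval C (fun i => x i) (fun i => T {i} k x) o).1} :=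
    Rel.and (u := T ∅ k) (Or.inl (hT _ _ (by simp))) (Or.inr rfl)
  have h5 := h3.trans' h4
  have h6 : Rel (F0 n 1 ∪ {fun x : Fin n → Bool =>
        T ∅ k x && (dval C (fun i => x i) (fun i => T {i} k x) o).1}) 1 0
      {fun x => T ∅ (k + 1) x ||
        (T ∅ k x && (dval C (fun i => x i) (fun i => T {i} k x) o).1)} :=
    Rel.or (u := T ∅ (k + 1)) (Or.inl (hT _ _ (by simp))) (Or.inr rfl)
  have h7 : Rel (F0 n 1) (2 * s + 1 + 1) 0 {win k 1 fun x => C.val x o} := by
    refine (h5.trans' h6).mono le_rfl ?_ (by omega) le_rfl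
    rintro g rfl
    rw [Set.mem_singleton_iff]
    funext x
    exact SLF_point k C o x
  have h8 := (F0_rel (n := n) 1).trans' (h7.mono Set.subset_union_right le_rfl le_rfl le_rfl)
  refine h8.mono le_rfl subset_rfl ?_ le_rfl
  have h9 : (n + 1) ^ 1 * (2 * (n + 2) ^ 2) ≤ 2 * (n + 2) ^ 3 := by
    rw [pow_one]
    nlinarith [Nat.zero_le (n + 2), sq_nonneg (n + 2)]
  omega

end Pool.Agent.ADV
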